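import Pool.Agent.helper34.FJ2.Complex

set_option autoImplicit false

/-!
# Descending trees

A discrete Morse lemma: in a simply connected 2-complex with a well-founded order of the vertices
such that all descending links are rooted forests, the edges to the roots form a tree.
-/

namespace Pool.Agent.helper60.LT

open Pool.Agent.helper34

variable {V : Type}

/-- hypotheses of the lemma -/
structure Desc (X : FJ2.Complex2 V) (lt : V → V → Prop) (Par : V → V → Prop) (nx : V → V → V)
    (dep : V → V → ℕ) : Prop where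
  wf : WellFounded lt
  total : ∀ x y, X.edge x y → lt x y ∨ lt y x
  par_lt : ∀ x p, Par x p → X.edge x p ∧ lt p x
  nx_tri : ∀ x y, X.edge x y → lt y x → ¬ Par x y →
      X.tri x y (nx x y) ∧ lt (nx x y) x ∧ dep x (nx x y) < dep x y
  tri_nx : ∀ x y z, X.tri x y z → lt y x → lt z x →
      (¬ Par x y ∧ z = nx x y) ∨ (¬ Par x z ∧ y = nx x z)

variable {X : FJ2.Complex2 V} {lt : V → V → Prop} {Par : V → V → Prop} {nx : V → V → V}
  {dep : V → V → ℕ}

theorem Desc.asymm (D : Desc X lt Par nx dep) {x y : V} (h : lt x y) (h' : lt y x) : False :=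
  D.wf.asymm.asymm x y h h'

/-! ## Connectedness -/

theorem Desc.reach (D : Desc X lt Par nx dep) (x : V) :
    ∀ y, X.edge x y → lt y x → (SimpleGraph.fromRel Par).Reachable x y := by
  induction x using D.wf.induction with
  | _ x ih =>
    intro y
    induction h : dep x y using Nat.strong_induction_on generalizing y with
    | _ n ih2 =>
      intro he hl
      by_cases hp : Par x y
      · apply SimpleGraph.Adj.reachable
        rw [SimpleGraph.fromRel_adj]
        exact ⟨X.edge_ne he, Or.inl hp⟩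
      · obtain ⟨h1, h2, h3⟩ := D.nx_tri x y he hl hp
        have h4 := ih2 _ (h ▸ h3) (nx x y) rfl (X.tri_edge'' h1) h2
        have h5 : (SimpleGraph.fromRel Par).Reachable (nx x y) y := by
          have h6 : X.edge y (nx x y) := X.tri_edge' h1
          rcases D.total _ _ h6 with h7 | h7
          · exact ih _ h2 y (X.edge_symm _ _ h6) h7
          · exact (ih _ hl _ h6 h7).symm
        exact h4.trans h5

theorem Desc.connected (D : Desc X lt Par nx dep) (hX : FJ2.SimplyConnected X) :
    (SimpleGraph.fromRel Par).Connected := by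
  have key : ∀ (l : List V) (a : V), FJ2.IsPath X a l →
      (SimpleGraph.fromRel Par).Reachable a (FJ2.endp a l) := by
    intro l
    induction l with
    | nil => intro a _; exact SimpleGraph.Reachable.refl _
    | cons b l ih =>
      intro a ha
      have h1 : (SimpleGraph.fromRel Par).Reachable a b := by
        rcases D.total _ _ ha.1 with h7 | h7
        · exact (D.reach _ _ (X.edge_symm _ _ ha.1) h7).symm
        · exact D.reach _ _ ha.1 h7
      exact h1.trans (ih b ha.2)
  have := hX.1
  refine ⟨fun a b => ?_⟩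
  obtain ⟨l, h1, h2⟩ := hX.2.1 a b
  exact h2 ▸ key l a h1

/-! ## The cocycle of an edge -/

/-- the order on descending edges -/
def lexR (lt : V → V → Prop) (dep : V → V → ℕ) : V × V → V × V → Prop :=
  InvImage (Prod.Lex lt (· < ·)) fun p => (p.1, dep p.1 p.2)

theorem Desc.lexR_wf (D : Desc X lt Par nx dep) : WellFounded (lexR lt dep) :=
  InvImage.wf _ (WellFounded.prod_lex D.wf Nat.lt_wfRel.wf)

open Classical in
/-- the values of the cocycle on descending edges -/
noncomputable def Desc.d (D : Desc X lt Par nx dep) (x0 p0 : V) : V × V → ZMod 2 :=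
  D.lexR_wf.fix fun p rec =>
    if h : X.edge p.1 p.2 ∧ lt p.2 p.1 then
      if hp : Par p.1 p.2 then (if p = (x0, p0) then 1 else 0)
      else
        rec (p.1, nx p.1 p.2) (Prod.Lex.right _ (D.nx_tri _ _ h.1 h.2 hp).2.2) +
          (if lt (nx p.1 p.2) p.2 then rec (p.2, nx p.1 p.2) (Prod.Lex.left _ _ h.2)
            else rec (nx p.1 p.2, p.2) (Prod.Lex.left _ _ (D.nx_tri _ _ h.1 h.2 hp).2.1))
    else 0

open Classical in
/-- the cocycle -/
noncomputable def Desc.c (D : Desc X lt Par nx dep) (x0 p0 a b : V) : ZMod 2 :=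
  if lt b a then D.d x0 p0 (a, b) else D.d x0 p0 (b, a)

theorem Desc.d_par (D : Desc X lt Par nx dep) (x0 p0 x y : V) (he : X.edge x y) (hl : lt y x)
    (hp : Par x y) : D.d x0 p0 (x, y) = open Classical in if (x, y) = (x0, p0) then 1 else 0 := by
  classical
  rw [Desc.d, WellFounded.fix_eq]
  simp only [he, hl, hp, and_self, dif_pos]

theorem Desc.d_nx (D : Desc X lt Par nx dep) (x0 p0 x y : V) (he : X.edge x y) (hl : lt y x)
    (hp : ¬ Par x y) :
    D.d x0 p0 (x, y) = D.d x0 p0 (x, nx x y) + D.c x0 p0 y (nx x y) := by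
  classical
  have h0 : D.d x0 p0 (x, y) = D.d x0 p0 (x, nx x y) + 
      (if lt (nx x y) y then D.d x0 p0 (y, nx x y) else D.d x0 p0 (nx x y, y)) := by
    conv_lhs => rw [Desc.d, WellFounded.fix_eq]
    simp only [he, hl, hp, and_self, dif_pos, dif_neg, not_false_eq_true]
    rfl
  rw [h0, Desc.c]

theorem Desc.c_comm (D : Desc X lt Par nx dep) (x0 p0 a b : V) (h : X.edge a b) :
    D.c x0 p0 a b = D.c x0 p0 b a := by
  classical
  rcases D.total _ _ h with h1 | h1
  · have h2 : ¬ lt b a := fun h2 => D.asymm h1 h2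
    simp [Desc.c, h1, h2]
  · have h2 : ¬ lt a b := fun h2 => D.asymm h1 h2
    simp [Desc.c, h1, h2]

theorem Desc.c_of_lt (D : Desc X lt Par nx dep) (x0 p0 a b : V) (h : lt b a) :
    D.c x0 p0 a b = D.d x0 p0 (a, b) := by
  simp [Desc.c, h]

theorem zmod_aux (a : ZMod 2) : a + a = 0 := by revert a; decide

/-- the cocycle condition, for the top vertex `x` -/
theorem Desc.coc_top (D : Desc X lt Par nx dep) (x0 p0 x y z : V) (ht : X.tri x y z)
    (hy : lt y x) (hz : lt z x) :
    D.c x0 p0 x y + D.c x0 p0 y z + D.c x0 p0 x z = 0 := by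
  rcases D.tri_nx x y z ht hy hz with ⟨h1, h2⟩ | ⟨h1, h2⟩
  · have h3 := D.d_nx x0 p0 x y (X.tri_edge _ _ _ ht) hy h1
    rw [← h2] at h3
    rw [D.c_of_lt x0 p0 x y hy, D.c_of_lt x0 p0 x z hz, h3]
    generalize D.d x0 p0 (x, z) = u
    generalize D.c x0 p0 y z = v
    revert u v; decide
  · have h3 := D.d_nx x0 p0 x z (X.tri_edge'' ht) hz h1
    rw [← h2] at h3
    rw [D.c_of_lt x0 p0 x y hy, D.c_of_lt x0 p0 x z hz, h3,
      D.c_comm x0 p0 y z (X.tri_edge' ht)]
    generalize D.d x0 p0 (x, y) = u
    generalize D.c x0 p0 z y = v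
    revert u v; decide

/-- the cocycle condition -/
theorem Desc.coc (D : Desc X lt Par nx dep) (x0 p0 x y z : V) (ht : X.tri x y z) :
    D.c x0 p0 x y + D.c x0 p0 y z + D.c x0 p0 x z = 0 := by
  have e1 := X.tri_edge _ _ _ ht
  have e2 := X.tri_edge' ht
  have e3 := X.tri_edge'' ht
  have aux1 : ∀ u v w : ZMod 2, u + v + w = 0 → v + w + u = 0 := by decide
  have aux2 : ∀ u v w : ZMod 2, u + v + w = 0 → w + v + u = 0 := by decide
  have aux3 : ∀ u v w : ZMod 2, u + v + w = 0 → u + w + v = 0 := by decide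
  -- `y` is the top
  have hY : lt x y → lt z y → D.c x0 p0 x y + D.c x0 p0 y z + D.c x0 p0 x z = 0 := by
    intro h1 h2
    have h3 := D.coc_top x0 p0 y x z (X.tri_swap _ _ _ ht) h1 h2
    rw [D.c_comm x0 p0 y x (X.edge_symm _ _ e1)] at h3
    exact aux3 _ _ _ h3
  have hZ : lt x z → lt y z → D.c x0 p0 x y + D.c x0 p0 y z + D.c x0 p0 x z = 0 := by
    intro h1 h2
    have h3 := D.coc_top x0 p0 z x y (X.tri_rot _ _ _ (X.tri_rot _ _ _ ht)) h1 h2
    rw [D.c_comm x0 p0 z x (X.edge_symm _ _ e3), D.c_comm x0 p0 z y (X.edge_symm _ _ e2)] at h3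
    exact aux1 _ _ _ h3
  rcases D.total _ _ e1 with h1 | h1
  · rcases D.total _ _ e2 with h2 | h2
    · rcases D.total _ _ e3 with h3 | h3
      · exact hZ h3 h2
      · -- cyclic: x < y < z < x
        exfalso
        have : ∀ a, a = x ∨ a = y ∨ a = z → False := by
          intro a
          induction a using D.wf.induction with
          | _ a ih =>
            rintro (rfl | rfl | rfl)
            · exact ih _ h3 (Or.inr (Or.inr rfl))
            · exact ih _ h1 (Or.inl rfl)
            · exact ih _ h2 (Or.inr (Or.inl rfl))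
        exact this x (Or.inl rfl)
    · exact hY h1 h2
  · rcases D.total _ _ e3 with h3 | h3
    · rcases D.total _ _ e2 with h2 | h2
      · exact hZ h3 h2
      · -- y < x < z < y
        exfalso
        have : ∀ a, a = x ∨ a = y ∨ a = z → False := by
          intro a
          induction a using D.wf.induction with
          | _ a ih =>
            rintro (rfl | rfl | rfl)
            · exact ih _ h1 (Or.inr (Or.inl rfl))
            · exact ih _ h2 (Or.inr (Or.inr rfl))
            · exact ih _ h3 (Or.inl rfl)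
        exact this x (Or.inl rfl)
    · exact D.coc_top x0 p0 x y z ht h1 h3

/-! ## Sums along paths -/

/-- the sum of the cocycle along a path -/
noncomputable def Desc.sum (D : Desc X lt Par nx dep) (x0 p0 : V) : V → List V → ZMod 2
  | _, [] => 0
  | a, b :: l => D.c x0 p0 a b + D.sum x0 p0 b l

theorem Desc.sum_append (D : Desc X lt Par nx dep) (x0 p0 : V) (a : V) (l m : List V) :
    D.sum x0 p0 a (l ++ m) = D.sum x0 p0 a l + D.sum x0 p0 (FJ2.endp a l) m := by
  induction l generalizing a with
  | nil => simp [Desc.sum]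
  | cons b l ih => simp [Desc.sum, ih, add_assoc]

theorem Desc.sum_htpy (D : Desc X lt Par nx dep) (x0 p0 : V) {a : V} {l m : List V}
    (h : FJ2.Htpy X a l m) : D.sum x0 p0 a l = D.sum x0 p0 a m := by
  induction h with
  | refl => rfl
  | symm _ _ _ _ ih => exact ih.symm
  | trans _ _ _ _ _ _ ih1 ih2 => exact ih1.trans ih2
  | cons _ _ _ _ _ ih => simp only [Desc.sum, ih]
  | spur a b l h =>
    simp only [Desc.sum]
    rw [D.c_comm x0 p0 b a (X.edge_symm _ _ h), ← add_assoc, zmod_aux, zero_add]
  | tri a b c l h =>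
    simp only [Desc.sum]
    have h1 := D.coc x0 p0 a b c h
    have aux : ∀ u v w s : ZMod 2, u + v + w = 0 → u + (v + s) = w + s := by decide
    exact aux _ _ _ _ h1

theorem Desc.sum_rev (D : Desc X lt Par nx dep) (x0 p0 : V) (a : V) (l : List V)
    (h : FJ2.IsPath X a l) :
    D.sum x0 p0 (FJ2.endp a l) (FJ2.rev a l) = D.sum x0 p0 a l := by
  induction l generalizing a with
  | nil => rfl
  | cons b l ih =>
    simp only [FJ2.endp_cons, FJ2.rev_cons, Desc.sum_append, FJ2.endp_rev, ih b h.2, Desc.sum,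
      add_zero]
    rw [D.c_comm x0 p0 b a (X.edge_symm _ _ h.1), add_comm]

theorem Desc.exists_pot (D : Desc X lt Par nx dep) (hX : FJ2.SimplyConnected X) (x0 p0 : V) :
    ∃ h : V → ZMod 2, ∀ a b, X.edge a b → h b = h a + D.c x0 p0 a b := by
  obtain ⟨a0⟩ := hX.1
  choose l hl1 hl2 using hX.2.1 a0
  refine ⟨fun v => D.sum x0 p0 a0 (l v), fun a b hab => ?_⟩
  have h1 : FJ2.IsPath X a0 (l a ++ b :: FJ2.rev a0 (l b)) := by
    rw [FJ2.isPath_append, hl2]
    refine ⟨hl1 a, hab, ?_⟩
    have := FJ2.isPath_rev X a0 (l b) (hl1 b)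
    rwa [hl2] at this
  have h2 : FJ2.endp a0 (l a ++ b :: FJ2.rev a0 (l b)) = a0 := by
    rw [FJ2.endp_append, FJ2.endp_cons]
    have := FJ2.endp_rev a0 (l b)
    rwa [hl2] at this
  have h3 := D.sum_htpy x0 p0 (hX.2.2 a0 _ h1 h2)
  have h4 := D.sum_rev x0 p0 a0 (l b) (hl1 b)
  rw [hl2] at h4
  simp only [Desc.sum_append, Desc.sum, hl2, h4] at h3
  have aux : ∀ u v w : ZMod 2, u + (v + w) = 0 → w = u + v := by decide
  exact aux _ _ _ h3

/-! ## The tree -/

theorem Desc.isTree (D : Desc X lt Par nx dep) (hX : FJ2.SimplyConnected X) :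
    (SimpleGraph.fromRel Par).IsTree := by
  classical
  refine ⟨D.connected hX, ?_⟩
  rw [SimpleGraph.isAcyclic_iff_forall_adj_isBridge]
  -- it is enough to treat an edge from `x` to a root `p`
  have key : ∀ x p, Par x p → (SimpleGraph.fromRel Par).IsBridge s(x, p) := by
    intro x p hp
    rw [SimpleGraph.isBridge_iff]
    intro hr
    obtain ⟨h, hh⟩ := D.exists_pot hX x p
    -- h is constant along the edges of the graph without the edge
    have hc : ∀ a b, ((SimpleGraph.fromRel Par).deleteEdges {s(x, p)}).Adj a b → h a = h b := by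
      intro a b hab
      rw [SimpleGraph.deleteEdges_adj, SimpleGraph.fromRel_adj] at hab
      obtain ⟨⟨-, h1⟩, h2⟩ := hab
      have key2 : ∀ a b, Par a b → s(a, b) ≠ s(x, p) → h a = h b := by
        intro a b h1 h2
        obtain ⟨he, hl⟩ := D.par_lt a b h1
        have h3 : (a, b) ≠ (x, p) := by
          intro h3
          rw [Prod.mk.injEq] at h3
          exact h2 (by rw [h3.1, h3.2])
        rw [hh a b he, D.c_of_lt x p a b hl, D.d_par x p a b he hl h1, if_neg h3, add_zero]
      rcases h1 with h1 | h1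
      · exact key2 a b h1 (by simpa using h2)
      · exact (key2 b a h1 (by rw [Sym2.eq_swap]; simpa using h2)).symm
    have hc2 : ∀ {a b} (w : ((SimpleGraph.fromRel Par).deleteEdges {s(x, p)}).Walk a b),
        h a = h b := by
      intro a b w
      induction w with
      | nil => rfl
      | cons h1 _ ih => exact (hc _ _ h1).trans ih
    obtain ⟨w⟩ := hr
    have h1 := hc2 w
    obtain ⟨he, hl⟩ := D.par_lt x p hp
    have h2 := hh x p he
    rw [D.c_of_lt x p x p hl, D.d_par x p x p he hl hp, if_pos rfl, h1] at h2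
    exact absurd h2 (by generalize h p = u; revert u; decide)
  intro a b hab
  rw [SimpleGraph.fromRel_adj] at hab
  rcases hab.2 with h | h
  · exact key a b h
  · rw [Sym2.eq_swap]
    exact key b a h

/-- descending trees (module M6) -/
theorem descending_tree {V : Type} (X : FJ2.Complex2 V) (hX : FJ2.SimplyConnected X)
    (lt : V → V → Prop) (wf : WellFounded lt) (total : ∀ x y, X.edge x y → lt x y ∨ lt y x)
    (Par : V → V → Prop) (nx : V → V → V) (dep : V → V → ℕ)
    (par_lt : ∀ x p, Par x p → X.edge x p ∧ lt p x)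
    (nx_tri : ∀ x y, X.edge x y → lt y x → ¬ Par x y →
      X.tri x y (nx x y) ∧ lt (nx x y) x ∧ dep x (nx x y) < dep x y)
    (tri_nx : ∀ x y z, X.tri x y z → lt y x → lt z x →
      (¬ Par x y ∧ z = nx x y) ∨ (¬ Par x z ∧ y = nx x z)) :
    (SimpleGraph.fromRel Par).IsTree :=
  Desc.isTree (dep := dep) ⟨wf, total, par_lt, nx_tri, tri_nx⟩ hX

end Pool.Agent.helper60.LT
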