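import Pool.Agent.helper36.LT.ArtinDefs

set_option autoImplicit false

/-!
# Braid relations for transvections
-/

namespace Pool.Agent.helper60.LT

open Pool.Agent.helper36.LT Matrix

/-! ## Alternating products -/

theorem alt_map {M N : Type} [Monoid M] [Monoid N] (f : M →* N) (a b : M) (n : ℕ) :
    f (alt a b n) = alt (f a) (f b) n := by
  induction n generalizing a b with
  | zero => simp [alt]
  | succ n ih => simp [alt, ih]

theorem alt_even {M : Type} [Monoid M] (a b : M) (n : ℕ) : alt a b (2 * n) = (a * b) ^ n := by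
  induction n with
  | zero => simp [alt]
  | succ n ih =>
    rw [Nat.mul_succ, pow_succ', ← ih]
    simp [alt, mul_assoc]

theorem alt_odd {M : Type} [Monoid M] (a b : M) (n : ℕ) :
    alt a b (2 * n + 1) = (a * b) ^ n * a := by
  induction n with
  | zero => simp [alt]
  | succ n ih =>
    rw [Nat.mul_succ, pow_succ', mul_assoc, ← ih]
    simp [alt, mul_assoc]

theorem alt_odd' {M : Type} [Monoid M] (a b : M) (n : ℕ) :
    alt a b (2 * n + 1) = a * (b * a) ^ n := by
  rw [alt, alt_even]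

/-! ## The form -/

theorem exists_form {S : Type} (M : CoxeterMatrix S) : ∃ ω, Form M ω := by
  classical
  let _ : LinearOrder S := WellOrderingRel.isWellOrder.linearOrder
  refine ⟨fun s t => if s < t then 2 * Real.cos (Real.pi / M.M s t)
    else if t < s then - (2 * Real.cos (Real.pi / M.M s t)) else 0, fun s t => ?_, fun s t h => ?_⟩
  · have hs : M.M t s = M.M s t := M.symmetric t s
    rcases lt_trichotomy s t with h | h | h
    · simp [h, h.not_gt, hs]
    · subst h; simp
    · simp [h, h.not_gt, hs]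
  · rcases lt_or_gt_of_ne h with h1 | h1
    · left; simp [h1]
    · right; simp [h1, h1.not_gt]

/-! ## The plane -/

/-- first matrix -/
def mP (c : ℝ) : Matrix (Fin 2) (Fin 2) ℝ := !![1, c; 0, 1]
/-- second matrix -/
def mQ (c : ℝ) : Matrix (Fin 2) (Fin 2) ℝ := !![1, 0; -c, 1]

theorem pow_formula (R : Matrix (Fin 2) (Fin 2) ℝ) (φ : ℝ)
    (hR : R * R = (2 * Real.cos φ) • R - 1) (n : ℕ) :
    Real.sin φ • R ^ n = Real.sin (n * φ) • R - Real.sin ((n - 1) * φ) • (1 : Matrix _ _ ℝ) := by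
  induction n with
  | zero => simp
  | succ n ih =>
    rw [pow_succ, ← smul_mul_assoc, ih, sub_mul, smul_mul_assoc, smul_mul_assoc, hR, one_mul]
    have h1 : Real.sin ((n + 1 : ℕ) * φ) = 
        2 * Real.cos φ * Real.sin (n * φ) - Real.sin ((n - 1) * φ) := by
      have e1 : ((n + 1 : ℕ) : ℝ) * φ = n * φ + φ := by push_cast; ring
      have e2 : ((n : ℝ) - 1) * φ = n * φ - φ := by ring
      rw [e1, e2, Real.sin_add, Real.sin_sub]
      ring
    have e3 : (((n + 1 : ℕ) : ℝ) - 1) * φ = n * φ := by push_cast; ring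
    rw [h1, e3]
    module

theorem plane {c : ℝ} {m : ℕ} (hm : 3 ≤ m) (hc : c ^ 2 = 4 * Real.cos (Real.pi / m) ^ 2) :
    alt (mP c) (mQ c) m = alt (mQ c) (mP c) m := by
  obtain ⟨θ, hθ⟩ : ∃ θ : ℝ, θ = Real.pi / m := ⟨_, rfl⟩
  obtain ⟨φ, hφ⟩ : ∃ φ : ℝ, φ = Real.pi - 2 * θ := ⟨_, rfl⟩
  rw [← hθ] at hc
  have hm0 : (0 : ℝ) < m := by positivity
  have hm3 : (3 : ℝ) ≤ m := by exact_mod_cast hm
  have hmθ : m * θ = Real.pi := by rw [hθ]; field_simp
  have hcos : 2 * Real.cos φ = 2 - c ^ 2 := by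
    rw [hφ, Real.cos_pi_sub, Real.cos_two_mul, hc]; ring
  have hR : mP c * mQ c * (mP c * mQ c) = (2 * Real.cos φ) • (mP c * mQ c) - 1 := by
    rw [hcos]
    ext i j
    fin_cases i <;> fin_cases j <;>
      simp [mP, mQ, Matrix.mul_apply, Fin.sum_univ_two] <;> ring
  have hR' : mQ c * mP c * (mQ c * mP c) = (2 * Real.cos φ) • (mQ c * mP c) - 1 := by
    rw [hcos]
    ext i j
    fin_cases i <;> fin_cases j <;>
      simp [mP, mQ, Matrix.mul_apply, Fin.sum_univ_two] <;> ring
  have hθ0 : 0 < θ := by rw [hθ]; positivity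
  have hθ1 : θ ≤ Real.pi / 3 := by
    rw [hθ]
    exact div_le_div_of_nonneg_left Real.pi_pos.le (by norm_num) hm3
  have hsin : Real.sin φ ≠ 0 := by
    rw [hφ, Real.sin_pi_sub]
    exact (Real.sin_pos_of_pos_of_lt_pi (by linarith) (by linarith [Real.pi_pos])).ne'
  obtain ⟨n, hn | hn⟩ := Nat.even_or_odd' m
  · rw [hn, alt_even, alt_even]
    have h1 := pow_formula _ φ hR n
    have h2 := pow_formula _ φ hR' n
    have h3 : Real.sin (n * φ) = 0 := by
      have e1 : (n : ℝ) * φ = (n : ℤ) * Real.pi - Real.pi := by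
        have : (m : ℝ) = 2 * n := by rw [hn]; push_cast; ring
        rw [this] at hmθ
        rw [hφ]; push_cast
        linear_combination -hmθ
      rw [e1, Real.sin_sub_pi, Real.sin_int_mul_pi, neg_zero]
    rw [h3, zero_smul, zero_sub] at h1 h2
    exact smul_right_injective _ hsin (h1.trans h2.symm)
  · rw [hn, alt_odd, alt_odd']
    have h1 := pow_formula _ φ hR n
    have h3 : Real.sin (n * φ) * (1 - c ^ 2) = Real.sin ((n - 1) * φ) := by
      have e1 : (n : ℝ) * φ + φ = ((n : ℤ) * (2 * Real.pi)) + (-(n * φ) - Real.pi) := by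
        have : (m : ℝ) = 2 * n + 1 := by rw [hn]; push_cast; ring
        rw [this] at hmθ
        rw [hφ]; push_cast
        linear_combination -2 * hmθ
      have e2 : Real.sin (n * φ + φ) = Real.sin (n * φ) := by
        rw [e1, add_comm, Real.sin_add_int_mul_two_pi, Real.sin_sub_pi, Real.sin_neg, neg_neg]
      rw [Real.sin_add] at e2
      have e3 : ((n : ℝ) - 1) * φ = n * φ - φ := by ring
      rw [e3, Real.sin_sub]
      have e4 : 1 - c ^ 2 = 2 * Real.cos φ - 1 := by rw [hcos]; ring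
      rw [e4]
      linear_combination e2
    apply smul_right_injective _ hsin
    show Real.sin φ • ((mP c * mQ c) ^ n * mP c) = Real.sin φ • (mQ c * (mP c * mQ c) ^ n)
    rw [← smul_mul_assoc, ← mul_smul_comm, h1, sub_mul, mul_sub, ← h3]
    clear h1 h3
    generalize Real.sin (n * φ) = u
    ext i j
    fin_cases i <;> fin_cases j <;>
      simp [mP, mQ] <;> ring

/-! ## From the plane to the whole space -/

section
variable {S : Type} [Fintype S] [DecidableEq S]

/-- the inclusion of the plane -/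
def mE (s t : S) : Matrix S (Fin 2) ℝ := Matrix.of fun i => ![if i = s then 1 else 0, if i = t then 1 else 0]
/-- the two linear forms -/
def mO (ω : S → S → ℝ) (s t : S) : Matrix (Fin 2) S ℝ := Matrix.of fun k j => ω (![s, t] k) j
/-- the inverse of the Gram matrix -/
noncomputable def mJ (c : ℝ) : Matrix (Fin 2) (Fin 2) ℝ := !![0, -c⁻¹; c⁻¹, 0]

theorem mO_mul_mE (ω : S → S → ℝ) (s t : S) :
    mO ω s t * mE s t = !![ω s s, ω s t; ω t s, ω t t] := by
  ext i j
  fin_cases i <;> fin_cases j <;> simp [mO, mE, Matrix.mul_apply]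

/-- the extension of a matrix of the plane to the whole space -/
noncomputable def ext2 (ω : S → S → ℝ) (s t : S) (hs : ω s s = 0) (ht : ω t t = 0)
    (hst : ω t s = - ω s t) (h0 : ω s t ≠ 0) :
    Matrix (Fin 2) (Fin 2) ℝ →* Matrix S S ℝ where
  toFun X := 1 + mE s t * ((X - 1) * mJ (ω s t)) * mO ω s t
  map_one' := by simp
  map_mul' X Y := by
    have hJ : mJ (ω s t) * (mO ω s t * mE s t) = 1 := by
      rw [mO_mul_mE, hs, ht, hst]
      ext i j
      fin_cases i <;> fin_cases j <;> simp [mJ, Matrix.mul_apply, Fin.sum_univ_two, h0]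
    have e1 : mE s t * ((X - 1) * mJ (ω s t)) * mO ω s t *
        (mE s t * ((Y - 1) * mJ (ω s t)) * mO ω s t) =
        mE s t * (((X - 1) * (Y - 1)) * mJ (ω s t)) * mO ω s t := by
      calc _ = mE s t * ((X - 1) * (mJ (ω s t) * (mO ω s t * mE s t)) *
            ((Y - 1) * mJ (ω s t))) * mO ω s t := by
            simp only [Matrix.mul_assoc]
        _ = _ := by rw [hJ]; simp only [Matrix.mul_assoc, Matrix.one_mul]
    rw [add_mul, mul_add, mul_add, one_mul, one_mul, mul_one, e1]
    have e2 : X * Y - 1 = (X - 1) + (Y - 1) + (X - 1) * (Y - 1) := by noncomm_ring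
    rw [e2, add_mul, add_mul, Matrix.mul_add, Matrix.mul_add, Matrix.add_mul, Matrix.add_mul]
    abel

theorem ext2_P (ω : S → S → ℝ) (s t : S) (hs : ω s s = 0) (ht : ω t t = 0)
    (hst : ω t s = - ω s t) (h0 : ω s t ≠ 0) :
    ext2 ω s t hs ht hst h0 (mP (ω s t)) = trv ω s := by
  have e1 : (mP (ω s t) - 1) * mJ (ω s t) = !![1, 0; 0, 0] := by
    ext i j
    fin_cases i <;> fin_cases j <;> simp [mJ, mP, Matrix.mul_apply, Fin.sum_univ_two, h0]
  show 1 + mE s t * ((mP (ω s t) - 1) * mJ (ω s t)) * mO ω s t = _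
  rw [e1]
  ext i j
  simp only [Matrix.add_apply, Matrix.one_apply, Matrix.mul_apply, Fin.sum_univ_two, mE, mO, trv,
    Matrix.of_apply]
  by_cases h : i = s <;> simp [h]

theorem ext2_Q (ω : S → S → ℝ) (s t : S) (hs : ω s s = 0) (ht : ω t t = 0)
    (hst : ω t s = - ω s t) (h0 : ω s t ≠ 0) :
    ext2 ω s t hs ht hst h0 (mQ (ω s t)) = trv ω t := by
  have e1 : (mQ (ω s t) - 1) * mJ (ω s t) = !![0, 0; 0, 1] := by
    ext i j
    fin_cases i <;> fin_cases j <;> simp [mJ, mQ, Matrix.mul_apply, Fin.sum_univ_two, h0]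
  show 1 + mE s t * ((mQ (ω s t) - 1) * mJ (ω s t)) * mO ω s t = _
  rw [e1]
  ext i j
  simp only [Matrix.add_apply, Matrix.one_apply, Matrix.mul_apply, Fin.sum_univ_two, mE, mO, trv,
    Matrix.of_apply]
  by_cases h : i = t <;> simp [h]

theorem alt_trv (M : CoxeterMatrix S) (hM : ∀ s t, M.M s t ≠ 2)
    (ω : S → S → ℝ) (hω : Form M ω) (s t : S) :
    alt (trv ω s) (trv ω t) (M.M s t) = alt (trv ω t) (trv ω s) (M.M s t) := by
  by_cases hst : s = t
  · subst hst; rfl
  have h1 : M.M s t ≠ 1 := M.off_diagonal s t hst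
  have h2 := hM s t
  rcases Nat.eq_zero_or_pos (M.M s t) with h0 | h0
  · rw [h0]; rfl
  have h3 : 3 ≤ M.M s t := by omega
  have hself : ∀ u, ω u u = 0 := fun u => by linarith [hω.skew u u]
  have hcpos : 0 < Real.cos (Real.pi / M.M s t) := by
    have hm3 : (3 : ℝ) ≤ M.M s t := by exact_mod_cast h3
    apply Real.cos_pos_of_mem_Ioo
    constructor
    · have : 0 < Real.pi / (M.M s t : ℝ) := by positivity
      linarith [Real.pi_pos]
    · calc Real.pi / (M.M s t : ℝ) ≤ Real.pi / 3 :=
            div_le_div_of_nonneg_left Real.pi_pos.le (by norm_num) hm3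
        _ < Real.pi / 2 := by linarith [Real.pi_pos]
  have hc : ω s t ^ 2 = 4 * Real.cos (Real.pi / M.M s t) ^ 2 := by
    rcases hω.val s t hst with h | h <;> rw [h] <;> ring
  have hne : ω s t ≠ 0 := by
    rcases hω.val s t hst with h | h <;> rw [h]
    · positivity
    · exact neg_ne_zero.mpr (by positivity)
  rw [← ext2_P ω s t (hself s) (hself t) (hω.skew s t) hne,
    ← ext2_Q ω s t (hself s) (hself t) (hω.skew s t) hne, ← alt_map, ← alt_map,
    plane h3 hc]

end

end Pool.Agent.helper60.LT
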